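import Pool.Agent.H24.Sul.Core

set_option autoImplicit false

namespace Pool.Agent.Results.MP_109285_co.DeleteVertex

open Pool.Agent.H24.Sul

/-- **Theorem.** Let `D` be a finite oriented graph with a vertex `x` such that `D - x` is a
tournament. Then `D` has a Sullivan vertex. -/
theorem result : ∀ (n : ℕ) (adj : Fin n → Fin n → Prop),
    (∀ x y : Fin n, adj x y → ¬ adj y x) →
    (∃ x : Fin n, ∀ u v : Fin n, u ≠ x → v ≠ x → u ≠ v → adj u v ∨ adj v u) →
    ∃ v : Fin n, {u : Fin n | adj u v}.ncard ≤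
        {w : Fin n | w ≠ v ∧ ¬ adj v w ∧ ∃ u : Fin n, adj v u ∧ adj u w}.ncard := by
  classical
  intro n adj hasym
  simp only [inDeg_eq, secondOut_eq]
  rintro ⟨x, hx⟩
  exact part3 adj hasym x hx

end Pool.Agent.Results.MP_109285_co.DeleteVertex
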