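import Pool.Agent.H24.Sul.Core

set_option autoImplicit false

namespace Pool.Agent.Results.MP_109285_co.MinInDegree

open Pool.Agent.H24.Sul

/-- **Theorem.** Let `D` be a finite oriented graph in which some vertex of minimum in-degree is
non-adjacent to at most two others and every vertex of minimum in-degree is non-adjacent to at most
three others. Then some vertex of minimum in-degree is a Sullivan vertex. -/
theorem result : ∀ (n : ℕ) (adj : Fin n → Fin n → Prop),
    (∀ x y : Fin n, adj x y → ¬ adj y x) →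
    (∃ v : Fin n, (∀ u : Fin n, {w : Fin n | adj w v}.ncard ≤ {w : Fin n | adj w u}.ncard) ∧
      {w : Fin n | w ≠ v ∧ ¬ adj v w ∧ ¬ adj w v}.ncard ≤ 2) →
    (∀ v : Fin n, (∀ u : Fin n, {w : Fin n | adj w v}.ncard ≤ {w : Fin n | adj w u}.ncard) →
      {w : Fin n | w ≠ v ∧ ¬ adj v w ∧ ¬ adj w v}.ncard ≤ 3) →
    ∃ v : Fin n, (∀ u : Fin n, {w : Fin n | adj w v}.ncard ≤ {w : Fin n | adj w u}.ncard) ∧
      {u : Fin n | adj u v}.ncard ≤
        {w : Fin n | w ≠ v ∧ ¬ adj v w ∧ ∃ u : Fin n, adj v u ∧ adj u w}.ncard := by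
  classical
  intro n adj hasym
  simp only [inDeg_eq, secondOut_eq, nonNbr_eq]
  rintro ⟨v0, hv0, hm0⟩ hm
  obtain ⟨v, hv, hU⟩ := part2 adj hasym v0 hv0 hm0 hm
  refine ⟨v, hv, ?_⟩
  have h2 := WS_card1 adj v
  have h3 := WS_card2 adj hasym v
  omega

end Pool.Agent.Results.MP_109285_co.MinInDegree
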