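import Pool.Agent.H24.Sul.Core

set_option autoImplicit false

namespace Pool.Agent.Results.MP_109285_co.NonNeighbourDefect

open Pool.Agent.H24.Sul

/-- **Theorem.** Let `D` be a finite oriented graph, `v` a vertex of minimum in-degree and `m` the
number of vertices non-adjacent to `v`. Then `|N⁻(v)| ≤ |N₂⁺(v)| + max(m - 1, 0)`. -/
theorem result : ∀ (n : ℕ) (adj : Fin n → Fin n → Prop),
    (∀ x y : Fin n, adj x y → ¬ adj y x) →
    ∀ v : Fin n, (∀ u : Fin n, {w : Fin n | adj w v}.ncard ≤ {w : Fin n | adj w u}.ncard) →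
      {u : Fin n | adj u v}.ncard ≤
        {w : Fin n | w ≠ v ∧ ¬ adj v w ∧ ∃ u : Fin n, adj v u ∧ adj u w}.ncard
          + ({w : Fin n | w ≠ v ∧ ¬ adj v w ∧ ¬ adj w v}.ncard - 1) := by
  classical
  intro n adj hasym
  simp only [inDeg_eq, secondOut_eq, nonNbr_eq]
  intro v hv
  have h1 := part1 adj hasym v hv
  have h2 := WS_card1 adj v
  have h3 := WS_card2 adj hasym v
  omega

end Pool.Agent.Results.MP_109285_co.NonNeighbourDefect
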