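import Pool.Agent.H24.Sul.Tri

set_option autoImplicit false

namespace Pool.Agent.Results.MP_109285_co.TransitiveTriangles

open Pool.Agent.H24.Sul

/-- **Theorem.** A nonempty finite oriented graph with at most as many transitive triangles as
arcs has a Sullivan vertex; this includes every nonempty oriented graph in which all in-degrees
are at most `3`, or all out-degrees are at most `3`. -/
theorem result : ∀ (n : ℕ) (adj : Fin n → Fin n → Prop),
    0 < n →
    (∀ x y : Fin n, adj x y → ¬ adj y x) →
    ({p : Fin n × Fin n × Fin n | adj p.1 p.2.1 ∧ adj p.1 p.2.2 ∧ adj p.2.1 p.2.2}.ncard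
        ≤ {p : Fin n × Fin n | adj p.1 p.2}.ncard ∨
      (∀ v : Fin n, {u : Fin n | adj u v}.ncard ≤ 3) ∨
      (∀ v : Fin n, {u : Fin n | adj v u}.ncard ≤ 3)) →
    ∃ v : Fin n, {u : Fin n | adj u v}.ncard ≤
        {w : Fin n | w ≠ v ∧ ¬ adj v w ∧ ∃ u : Fin n, adj v u ∧ adj u w}.ncard := by
  classical
  intro n adj hn hasym h
  simp only [inDeg_eq, secondOut_eq, outDeg_eq] at h ⊢
  refine tri_main adj hn hasym ?_
  rcases h with h | h | h
  · rw [← arcs_eq, ← tris_eq]
    exact_mod_cast h
  · exact tri_in adj hasym h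
  · exact tri_out adj hasym h

end Pool.Agent.Results.MP_109285_co.TransitiveTriangles
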